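import Mathlib

set_option autoImplicit false

namespace Pool.Agent.Results.MP_a0e599_al.Main

open ExteriorAlgebra

universe u v

section defs

variable {R : Type u} {V : Type v} [CommRing R] [AddCommGroup V] [Module R V] {n : ℕ}

/-- The basis vector `x_i` of `V_n`, as an element of the exterior algebra. -/
noncomputable def gen (e : Module.Basis (Fin n) R V) (i : Fin n) : ExteriorAlgebra R V :=
  ExteriorAlgebra.ι R (e i)

/-- Product of the generators along a list. -/
noncomputable def lmono (e : Module.Basis (Fin n) R V) (l : List (Fin n)) :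
    ExteriorAlgebra R V :=
  (l.map (gen e)).prod

/-- The square-free monomial `x_{i_1} ∧ ... ∧ x_{i_d}` with `i_1 < ... < i_d` the elements of `s`. -/
noncomputable def mono (e : Module.Basis (Fin n) R V) (s : Finset (Fin n)) :
    ExteriorAlgebra R V :=
  lmono e (s.sort (· ≤ ·))

/-- The form of degree `d` with coefficients `c`. -/
noncomputable def form (e : Module.Basis (Fin n) R V) (d : ℕ) (c : Finset (Fin n) → R) :
    ExteriorAlgebra R V :=
  ∑ s ∈ (Finset.univ : Finset (Fin n)).powersetCard d, c s • mono e s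

/-- The homogeneous part of integer degree `i` (zero if `i < 0`). -/
noncomputable def gr (R : Type u) (V : Type v) [CommRing R] [AddCommGroup V] [Module R V] (i : ℤ) :
    Submodule R (ExteriorAlgebra R V) :=
  if 0 ≤ i then ⋀[R]^(i.toNat) V else ⊥

/-- Multiplication by `f`. -/
noncomputable def mulBy (f : ExteriorAlgebra R V) :
    ExteriorAlgebra R V →ₗ[R] ExteriorAlgebra R V :=
  LinearMap.mulLeft R f

/-- Kernel of multiplication by `f` on the degree `r` part. -/
noncomputable def cycles (f : ExteriorAlgebra R V) (r : ℕ) : Submodule R (ExteriorAlgebra R V) :=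
  gr R V r ⊓ LinearMap.ker (mulBy f)

/-- Image of the degree `r - d` part under multiplication by `f`. -/
noncomputable def bounds (f : ExteriorAlgebra R V) (d r : ℕ) :
    Submodule R (ExteriorAlgebra R V) :=
  Submodule.map (mulBy f) (gr R V ((r : ℤ) - (d : ℤ)))

/-- The boundaries, as a submodule of the cycles. -/
noncomputable def boundsIn (f : ExteriorAlgebra R V) (d r : ℕ) : Submodule R (cycles f r) :=
  Submodule.comap (Submodule.subtype (cycles f r)) (bounds f d r)

/-- The homology `H_r` of multiplication by `f`. -/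
abbrev Homology (f : ExteriorAlgebra R V) (d r : ℕ) : Type (max u v) :=
  cycles f r ⧸ boundsIn f d r

end defs

/-- The coefficients `c` of a form of degree `d` are generic: they are pairwise distinct,
none of them is rational, and the set of coefficients is algebraically independent over `ℚ`. -/
def IsGeneric {K : Type u} [Field K] [CharZero K] {n : ℕ} (d : ℕ) (c : Finset (Fin n) → K) :
    Prop :=
  (∀ s t : Finset (Fin n), s.card = d → t.card = d → c s = c t → s = t) ∧
  (∀ s : Finset (Fin n), s.card = d → ∀ q : ℚ, c s ≠ (q : K)) ∧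
  AlgebraicIndependent ℚ
    (Subtype.val : {a : K // ∃ s : Finset (Fin n), s.card = d ∧ c s = a} → K)

section ops

variable {K : Type u} [Field K] {n : ℕ} {V : Type v} [AddCommGroup V] [Module K V]
  {e : Module.Basis (Fin n) K V}

/-- contraction with the `i`-th coordinate form -/
noncomputable def del (e : Module.Basis (Fin n) K V) (i : Fin n) :
    ExteriorAlgebra K V →ₗ[K] ExteriorAlgebra K V :=
  CliffordAlgebra.contractLeft (e.coord i)

lemma del_gen_mul (i j : Fin n) (x : ExteriorAlgebra K V) :
    del e i (gen e j * x) = (if i = j then x else 0) - gen e j * del e i x := by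
  unfold del gen
  rw [CliffordAlgebra.contractLeft_ι_mul]
  by_cases h : i = j
  · subst h; simp
  · simp [h]

lemma del_del (i : Fin n) (x : ExteriorAlgebra K V) : del e i (del e i x) = 0 := by
  unfold del; exact CliffordAlgebra.contractLeft_contractLeft _ _

lemma del_comm (i j : Fin n) (x : ExteriorAlgebra K V) :
    del e i (del e j x) = - del e j (del e i x) := by
  unfold del; exact CliffordAlgebra.contractLeft_comm _ _ _

lemma gen_gen (i : Fin n) : gen e i * gen e i = 0 := by
  unfold gen; exact ExteriorAlgebra.ι_sq_zero _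

lemma gen_anti (i j : Fin n) : gen e i * gen e j = - (gen e j * gen e i) := by
  unfold gen
  exact eq_neg_of_add_eq_zero_left (ExteriorAlgebra.ι_add_mul_swap _ _)

/-- simultaneous occupation-number eigenvector -/
def IsEig (e : Module.Basis (Fin n) K V) (S : Finset (Fin n)) (x : ExteriorAlgebra K V) : Prop :=
  ∀ i, gen e i * del e i x = if i ∈ S then x else 0

/-- iterated contraction -/
noncomputable def dels (e : Module.Basis (Fin n) K V) :
    List (Fin n) → (ExteriorAlgebra K V →ₗ[K] ExteriorAlgebra K V)
  | [] => LinearMap.id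
  | a :: l => (dels e l) ∘ₗ (del e a)

@[simp] lemma dels_nil (x : ExteriorAlgebra K V) : dels e [] x = x := rfl
@[simp] lemma dels_cons (a : Fin n) (l : List (Fin n)) (x : ExteriorAlgebra K V) :
    dels e (a :: l) x = dels e l (del e a x) := rfl
@[simp] lemma lmono_nil : lmono e ([] : List (Fin n)) = 1 := by simp [lmono]
@[simp] lemma lmono_cons (a : Fin n) (l : List (Fin n)) :
    lmono e (a :: l) = gen e a * lmono e l := by simp [lmono]

lemma del_lmono_mul (a : Fin n) (l : List (Fin n)) (ha : a ∉ l)
    (x : ExteriorAlgebra K V) :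
    del e a (lmono e l * x) = (-1 : K) ^ l.length • (lmono e l * del e a x) := by
  induction l with
  | nil => simp
  | cons b l ih =>
    simp only [List.mem_cons, not_or] at ha
    rw [lmono_cons, mul_assoc, del_gen_mul, if_neg ha.1, ih ha.2]
    simp only [List.length_cons, pow_succ, mul_smul_comm, mul_assoc]
    simp

lemma gen_mul_lmono (a : Fin n) (l : List (Fin n)) :
    gen e a * lmono e l = (-1 : K) ^ l.length • (lmono e l * gen e a) := by
  induction l with
  | nil => simp
  | cons b l ih =>
    rw [lmono_cons, ← mul_assoc, gen_anti a b, neg_mul, mul_assoc, ih]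
    simp only [List.length_cons, pow_succ, mul_smul_comm, mul_assoc]
    simp

lemma dels_lmono_mul (L l : List (Fin n)) (h : ∀ a ∈ L, a ∉ l)
    (x : ExteriorAlgebra K V) :
    dels e L (lmono e l * x) = ((-1 : K) ^ (l.length * L.length)) • (lmono e l * dels e L x) := by
  induction L generalizing x with
  | nil => simp
  | cons a L ih =>
    rw [dels_cons, del_lmono_mul a l (h a (by simp)), map_smul,
      ih (fun b hb => h b (by simp [hb]))]
    rw [smul_smul, ← pow_add, dels_cons]
    congr 2
    simp only [List.length_cons]; ring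

lemma isEig_del {S : Finset (Fin n)} {x : ExteriorAlgebra K V} (h : IsEig e S x)
    (a : Fin n) : IsEig e (S.erase a) (del e a x) := by
  intro i
  by_cases hi : i = a
  · subst hi; rw [del_del]; simp
  · rw [del_comm i a]
    have h1 := del_gen_mul a i (e := e) (del e i x)
    rw [if_neg (Ne.symm hi), h i] at h1
    have h2 : gen e i * -(del e a (del e i x)) = del e a (if i ∈ S then x else 0) := by
      rw [h1]; simp
    rw [h2]
    by_cases hS : i ∈ S <;> simp [hS, hi]

lemma isEig_del_eq_zero {S : Finset (Fin n)} {x : ExteriorAlgebra K V} (h : IsEig e S x)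
    {a : Fin n} (ha : a ∉ S) : del e a x = 0 := by
  have h1 := del_gen_mul a a (e := e) (del e a x)
  rw [if_pos rfl, del_del, h a, if_neg ha] at h1
  simpa using h1.symm

lemma lmono_mul_dels {S : Finset (Fin n)} {x : ExteriorAlgebra K V} (h : IsEig e S x)
    (L : List (Fin n)) (hL : L.Nodup) :
    lmono e L * dels e L x = if (∀ i ∈ L, i ∈ S) then x else 0 := by
  induction L generalizing x S with
  | nil => simp
  | cons a l ih =>
    rw [List.nodup_cons] at hL
    rw [lmono_cons, dels_cons, mul_assoc, ih (isEig_del h a) hL.2]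
    by_cases ha : a ∈ S
    · by_cases hl : ∀ i ∈ l, i ∈ S
      · have h1 : ∀ i ∈ l, i ∈ S.erase a := fun i hi =>
          Finset.mem_erase.2 ⟨fun e => hL.1 (e ▸ hi), hl i hi⟩
        have h2 : ∀ i ∈ a :: l, i ∈ S := by
          intro i hi
          rcases List.mem_cons.1 hi with rfl | hi
          · exact ha
          · exact hl i hi
        rw [if_pos h1, if_pos h2, h a, if_pos ha]
      · have h1 : ¬ ∀ i ∈ l, i ∈ S.erase a := fun hh => hl fun i hi => (Finset.mem_erase.1 (hh i hi)).2
        have h2 : ¬ ∀ i ∈ a :: l, i ∈ S := fun hh => hl fun i hi => hh i (List.mem_cons_of_mem _ hi)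
        rw [if_neg h1, if_neg h2, mul_zero]
    · have h2 : ¬ ∀ i ∈ a :: l, i ∈ S := fun hh => ha (hh a (by simp))
      rw [if_neg h2, isEig_del_eq_zero h ha]
      simp

lemma dels_lmono_mul_self {S : Finset (Fin n)} {x : ExteriorAlgebra K V} (h : IsEig e S x)
    (L : List (Fin n)) (hL : L.Nodup) :
    dels e L (lmono e L * x) = if (∀ i ∈ L, i ∉ S) then x else 0 := by
  induction L with
  | nil => simp
  | cons a l ih =>
    rw [List.nodup_cons] at hL
    rw [lmono_cons, dels_cons, mul_assoc, del_gen_mul, if_pos rfl, del_lmono_mul a l hL.1]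
    have h3 : gen e a * ((-1 : K) ^ l.length • (lmono e l * del e a x)) =
        lmono e l * (gen e a * del e a x) := by
      rw [mul_smul_comm, ← mul_assoc, gen_mul_lmono, smul_mul_assoc, smul_smul, ← mul_pow, mul_assoc]
      simp
    rw [h3, h a]
    by_cases ha : a ∈ S
    · have h2 : ¬ ∀ i ∈ a :: l, i ∉ S := fun hh => (hh a (by simp)) ha
      rw [if_pos ha, if_neg h2]
      simp
    · rw [if_neg ha, mul_zero, sub_zero, ih hL.2]
      by_cases hl : ∀ i ∈ l, i ∉ S
      · have h2 : ∀ i ∈ a :: l, i ∉ S := by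
          intro i hi
          rcases List.mem_cons.1 hi with rfl | hi
          · exact ha
          · exact hl i hi
        rw [if_pos hl, if_pos h2]
      · have h2 : ¬ ∀ i ∈ a :: l, i ∉ S := fun hh => hl fun i hi => hh i (List.mem_cons_of_mem _ hi)
        rw [if_neg hl, if_neg h2]

lemma isEig_lmono (l : List (Fin n)) (hl : l.Nodup) : IsEig e l.toFinset (lmono e l) := by
  induction l with
  | nil =>
    intro i
    simp [del, CliffordAlgebra.contractLeft_one]
  | cons a l ih =>
    rw [List.nodup_cons] at hl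
    intro i
    rw [lmono_cons, del_gen_mul]
    by_cases hi : i = a
    · subst hi
      rw [if_pos rfl, mul_sub, ← mul_assoc, gen_gen]
      simp
    · rw [if_neg hi, zero_sub, mul_neg, ← mul_assoc, gen_anti i a, neg_mul, neg_neg, mul_assoc,
        ih hl.2 i]
      by_cases hm : i ∈ l <;> simp [hm, hi]


lemma isEig_mono (S : Finset (Fin n)) : IsEig e S (mono e S) := by
  have h := isEig_lmono (e := e) (S.sort (· ≤ ·)) (Finset.sort_nodup S (· ≤ ·))
  rwa [Finset.sort_toFinset] at h

/-- Mathlib's basis of the exterior algebra. -/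
noncomputable def BB (e : Module.Basis (Fin n) K V) :
    Module.Basis (Finset (Fin n)) K (ExteriorAlgebra K V) :=
  e.ExteriorAlgebra

lemma BB_apply (S : Finset (Fin n)) : BB e S = mono e S := by
  unfold BB mono lmono
  rw [ExteriorAlgebra.basis_apply_ofCard (e) (rfl : S.card = S.card)]
  unfold ExteriorAlgebra.ιMulti_family
  rw [ExteriorAlgebra.ιMulti_apply]
  congr 1
  apply List.ext_getElem
  · simp
  · intro i h1 h2
    simp only [List.getElem_ofFn, Function.comp_apply, Set.powersetCard.ofFinEmbEquiv_symm_apply,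
      List.getElem_map]
    rfl

lemma lmono_mem (l : List (Fin n)) : lmono e l ∈ ⋀[K]^(l.length) V := by
  induction l with
  | nil => simp
  | cons a l ih =>
    rw [lmono_cons, List.length_cons, exteriorPower, pow_succ']
    exact Submodule.mul_mem_mul ⟨_, rfl⟩ ih

lemma mono_mem (S : Finset (Fin n)) : mono e S ∈ ⋀[K]^(S.card) V := by
  have := lmono_mem (e := e) (S.sort (· ≤ ·))
  rwa [Finset.length_sort] at this

lemma del_zero {x : ExteriorAlgebra K V} (a : Fin n)
    (hx : x ∈ ⋀[K]^0 V) : del e a x = 0 := by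
  rw [exteriorPower, pow_zero] at hx
  obtain ⟨c, rfl⟩ := Submodule.mem_one.1 hx
  unfold del
  exact CliffordAlgebra.contractLeft_algebraMap _ _ _

lemma del_mem (r : ℕ) (a : Fin n) : ∀ {x : ExteriorAlgebra K V},
    x ∈ ⋀[K]^(r+1) V → del e a x ∈ ⋀[K]^r V := by
  induction r with
  | zero =>
    intro x hx
    rw [exteriorPower, zero_add, pow_one] at hx
    obtain ⟨v, rfl⟩ := hx
    unfold del
    rw [CliffordAlgebra.contractLeft_ι]
    rw [exteriorPower, pow_zero]
    exact Submodule.mem_one.2 ⟨_, rfl⟩
  | succ r ih =>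
    intro x hx
    rw [exteriorPower, pow_succ'] at hx
    induction hx using Submodule.mul_induction_on' with
    | mem_mul_mem m hm y hy =>
      obtain ⟨v, rfl⟩ := hm
      unfold del
      rw [CliffordAlgebra.contractLeft_ι_mul]
      refine Submodule.sub_mem _ (Submodule.smul_mem _ _ hy) ?_
      rw [exteriorPower, pow_succ']
      exact Submodule.mul_mem_mul ⟨_, rfl⟩ (ih hy)
    | add x _ y _ hx hy => rw [map_add]; exact Submodule.add_mem _ hx hy

lemma dels_mem (L : List (Fin n)) (r : ℕ) : ∀ {x : ExteriorAlgebra K V},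
    x ∈ gr K V r → dels e L x ∈ gr K V ((r : ℤ) - L.length) := by
  induction L generalizing r with
  | nil => intro x hx; simpa using hx
  | cons a L ih =>
    intro x hx
    rw [dels_cons]
    unfold gr at hx
    rw [if_pos (by positivity), Int.toNat_natCast] at hx
    rcases r with _ | r
    · rw [del_zero a hx, map_zero]; exact Submodule.zero_mem _
    · have h1 := del_mem (e := e) r a hx
      have h2 : del e a x ∈ gr K V r := by
        unfold gr
        rw [if_pos (by positivity), Int.toNat_natCast]
        exact h1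
      have h3 := ih r h2
      have h4 : ((r + 1 : ℕ) : ℤ) - ((a :: L).length : ℤ) = (r : ℤ) - (L.length : ℤ) := by
        push_cast [List.length_cons]; ring
      rw [h4]; exact h3

/-- integer multiples of basis vectors -/
lemma lmono_eq (l : List (Fin n)) : ∃ (z : ℤ) (S : Finset (Fin n)), lmono e l = (z : K) • BB e S := by
  induction l with
  | nil =>
    refine ⟨1, ∅, ?_⟩
    rw [BB_apply]
    simp [mono]
  | cons a l ih =>
    obtain ⟨z, S, h⟩ := ih
    have hg : gen e a = BB e {a} := by
      rw [BB_apply]; simp [mono]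
    rw [lmono_cons, h, hg]
    by_cases hd : Disjoint ({a} : Finset (Fin n)) S
    · have := ExteriorAlgebra.basis_mul_of_disjoint (e)
        (Set.powersetCard.ofCard (s := {a}) rfl) (Set.powersetCard.ofCard (s := S) rfl) hd
      change BB e {a} * BB e S = _ at this
      rw [mul_smul_comm, this]
      rcases Int.units_eq_one_or (Set.powersetCard.permOfDisjoint (s := Set.powersetCard.ofCard (s := {a}) rfl) (t := Set.powersetCard.ofCard (s := S) rfl) hd).sign with h1 | h1
      · rw [h1, one_smul]
        exact ⟨z, _, rfl⟩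
      · rw [h1]
        refine ⟨-z, ↑(Set.powersetCard.disjUnion (s := Set.powersetCard.ofCard (s := {a}) rfl) (t := Set.powersetCard.ofCard (s := S) rfl) hd), ?_⟩
        rw [Units.neg_smul, one_smul, smul_neg, Int.cast_neg, neg_smul]
        rfl
    · have := ExteriorAlgebra.basis_mul_of_not_disjoint (e)
        (Set.powersetCard.ofCard (s := {a}) rfl) (Set.powersetCard.ofCard (s := S) rfl) hd
      change BB e {a} * BB e S = 0 at this
      rw [mul_smul_comm, this]
      exact ⟨0, ∅, by simp⟩


/-- additive group generated by products of generators -/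
def ZL (e : Module.Basis (Fin n) K V) : AddSubgroup (ExteriorAlgebra K V) :=
  AddSubgroup.closure (Set.range (lmono e : List (Fin n) → ExteriorAlgebra K V))

lemma ZL_coord {x : ExteriorAlgebra K V} (hx : x ∈ ZL e) (S : Finset (Fin n)) :
    ∃ z : ℤ, (BB e).repr x S = z := by
  unfold ZL at hx
  induction hx using AddSubgroup.closure_induction with
  | mem x hx =>
    obtain ⟨l, rfl⟩ := hx
    obtain ⟨z, T, h⟩ := lmono_eq (e := e) l
    rw [h]
    by_cases hT : T = S
    · exact ⟨z, by subst hT; simp⟩
    · exact ⟨0, by simp [hT]⟩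
  | zero => exact ⟨0, by simp⟩
  | add x y _ _ hx hy =>
    obtain ⟨a, ha⟩ := hx
    obtain ⟨b, hb⟩ := hy
    exact ⟨a + b, by simp [ha, hb]⟩
  | neg x _ hx =>
    obtain ⟨a, ha⟩ := hx
    exact ⟨-a, by simp [ha]⟩

lemma lmono_append (l l' : List (Fin n)) : lmono e (l ++ l') = lmono e l * lmono e l' := by
  simp [lmono]

lemma lmono_mem_ZL (l : List (Fin n)) : lmono e l ∈ ZL e :=
  AddSubgroup.subset_closure ⟨l, rfl⟩

lemma lmono_mul_mem_ZL {x : ExteriorAlgebra K V} (l : List (Fin n)) (hx : x ∈ ZL e) :
    lmono e l * x ∈ ZL e := by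
  unfold ZL at hx
  induction hx using AddSubgroup.closure_induction with
  | mem x hx =>
    obtain ⟨l', rfl⟩ := hx
    rw [← lmono_append]; exact lmono_mem_ZL _
  | zero => rw [mul_zero]; exact AddSubgroup.zero_mem _
  | add x y _ _ hx hy => rw [mul_add]; exact AddSubgroup.add_mem _ hx hy
  | neg x _ hx => rw [mul_neg]; exact AddSubgroup.neg_mem _ hx

lemma del_mem_ZL {x : ExteriorAlgebra K V} (a : Fin n) (hx : x ∈ ZL e) :
    del e a x ∈ ZL e := by
  unfold ZL at hx
  induction hx using AddSubgroup.closure_induction with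
  | mem x hx =>
    obtain ⟨l, rfl⟩ := hx
    induction l with
    | nil =>
      rw [lmono_nil]
      unfold del
      rw [CliffordAlgebra.contractLeft_one]
      exact AddSubgroup.zero_mem _
    | cons b l ih =>
      rw [lmono_cons, del_gen_mul]
      have h1 : gen e b * del e a (lmono e l) ∈ ZL e := by
        have := lmono_mul_mem_ZL [b] ih
        simpa using this
      refine AddSubgroup.sub_mem _ ?_ h1
      by_cases h : a = b
      · rw [if_pos h]; exact lmono_mem_ZL _
      · rw [if_neg h]; exact AddSubgroup.zero_mem _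
  | zero => rw [map_zero]; exact AddSubgroup.zero_mem _
  | add x y _ _ hx hy => rw [map_add]; exact AddSubgroup.add_mem _ hx hy
  | neg x _ hx => rw [map_neg]; exact AddSubgroup.neg_mem _ hx

lemma dels_mem_ZL (L : List (Fin n)) : ∀ {x : ExteriorAlgebra K V}, x ∈ ZL e →
    dels e L x ∈ ZL e := by
  induction L with
  | nil => intro x hx; exact hx
  | cons a L ih => intro x hx; exact ih (del_mem_ZL a hx)

/-- the homotopy attached to a family of blocks -/
noncomputable def Hop (e : Module.Basis (Fin n) K V) {k : ℕ} (T : Fin k → Finset (Fin n)) :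
    ExteriorAlgebra K V →ₗ[K] ExteriorAlgebra K V :=
  ∑ b, dels e ((T b).sort (· ≤ ·))

/-- anticommutator of multiplication with the homotopy -/
noncomputable def Phi (e : Module.Basis (Fin n) K V) {k : ℕ} (T : Fin k → Finset (Fin n)) (f x : ExteriorAlgebra K V) :
    ExteriorAlgebra K V :=
  f * Hop e T x + Hop e T (f * x)

lemma Hop_apply {k : ℕ} (T : Fin k → Finset (Fin n)) (x : ExteriorAlgebra K V) :
    Hop e T x = ∑ b, dels e ((T b).sort (· ≤ ·)) x := by
  simp [Hop, LinearMap.sum_apply]

lemma Hop_mem {k : ℕ} (T : Fin k → Finset (Fin n)) {d : ℕ} (hT : ∀ b, (T b).card = d) (r : ℕ)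
    {x : ExteriorAlgebra K V} (hx : x ∈ gr K V r) :
    Hop e T x ∈ gr K V ((r : ℤ) - d) := by
  rw [Hop_apply]
  refine Submodule.sum_mem _ fun b _ => ?_
  have := dels_mem (e := e) ((T b).sort (· ≤ ·)) r hx
  rwa [Finset.length_sort, hT b] at this

lemma Hop_mem_ZL {k : ℕ} (T : Fin k → Finset (Fin n)) 
    {x : ExteriorAlgebra K V} (hx : x ∈ ZL e) :
    Hop e T x ∈ ZL e := by
  rw [Hop_apply]
  exact AddSubgroup.sum_mem _ fun b _ => dels_mem_ZL _ hx

/-- number of blocks contained in `S` plus number of blocks disjoint from `S` -/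
def lam {k : ℕ} (T : Fin k → Finset (Fin n)) (S : Finset (Fin n)) : ℕ :=
  ∑ b, ((if ∀ i ∈ T b, i ∈ S then 1 else 0) + (if ∀ i ∈ T b, i ∉ S then 1 else 0))

lemma Phi_special {k d : ℕ} (T : Fin k → Finset (Fin n)) (hd : Odd d) (hT : ∀ b, (T b).card = d)
    (hdis : ∀ b b', b ≠ b' → Disjoint (T b) (T b')) (S : Finset (Fin n)) :
    Phi e T (∑ b, mono e (T b)) (mono e S) = (lam T S : K) • mono e S := by
  unfold Phi
  simp only [Hop_apply, Finset.sum_mul, Finset.mul_sum, map_sum]
  have key : ∀ b b' : Fin k, mono e (T b) * dels e ((T b').sort (· ≤ ·)) (mono e S) +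
      dels e ((T b').sort (· ≤ ·)) (mono e (T b) * mono e S) =
      if b = b' then ((if ∀ i ∈ T b, i ∈ S then (1:K) else 0) +
        (if ∀ i ∈ T b, i ∉ S then (1:K) else 0)) • mono e S else 0 := by
    intro b b'
    by_cases hb : b = b'
    · subst hb
      rw [if_pos rfl]
      have h1 := lmono_mul_dels (isEig_mono (e := e) S) ((T b).sort (· ≤ ·))
        (Finset.sort_nodup _ _)
      have h2 := dels_lmono_mul_self (isEig_mono (e := e) S) ((T b).sort (· ≤ ·))
        (Finset.sort_nodup _ _)
      simp only [Finset.mem_sort] at h1 h2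
      unfold mono at h1 h2 ⊢
      rw [h1, h2, add_smul]
      congr 1 <;> split_ifs <;> simp
    · rw [if_neg hb]
      have h3 := dels_lmono_mul (e := e) ((T b').sort (· ≤ ·)) ((T b).sort (· ≤ ·))
        (by
          intro a ha hb'
          rw [Finset.mem_sort] at ha hb'
          exact (Finset.disjoint_left.1 (hdis b b' hb)) hb' ha) (mono e S)
      rw [Finset.length_sort, Finset.length_sort, hT, hT, (hd.mul hd).neg_one_pow] at h3
      unfold mono at h3 ⊢
      rw [h3]
      simp
  have e1 : (∑ b' : Fin k, ∑ b : Fin k, mono e (T b) * dels e ((T b').sort (· ≤ ·)) (mono e S)) +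
      (∑ b' : Fin k, ∑ b : Fin k, dels e ((T b').sort (· ≤ ·)) (mono e (T b) * mono e S)) =
      ∑ b' : Fin k, ((if ∀ i ∈ T b', i ∈ S then (1:K) else 0) +
        (if ∀ i ∈ T b', i ∉ S then (1:K) else 0)) • mono e S := by
    rw [← Finset.sum_add_distrib]
    refine Finset.sum_congr rfl fun b' _ => ?_
    rw [← Finset.sum_add_distrib]
    simp_rw [key]
    simp
  refine Eq.trans ?_ (e1.trans ?_)
  · congr 1
    exact Finset.sum_comm
  · rw [← Finset.sum_smul]
    congr 1
    unfold lam
    push_cast
    rfl


lemma lam_pos {k : ℕ} (T : Fin k → Finset (Fin n))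
    (hdis : ∀ b b', b ≠ b' → Disjoint (T b) (T b')) (S : Finset (Fin n)) (hS : S.card < k) :
    0 < lam T S := by
  by_contra h
  have h0 : lam T S = 0 := by omega
  unfold lam at h0
  rw [Finset.sum_eq_zero_iff] at h0
  have h1 : ∀ b, ∃ i ∈ T b, i ∈ S := by
    intro b
    by_contra hb
    push Not at hb
    have := h0 b (Finset.mem_univ _)
    rw [if_pos hb] at this
    omega
  choose g hg1 hg2 using h1
  have hinj : Function.Injective g := by
    intro b b' hbb
    by_contra hne
    exact (Finset.disjoint_left.1 (hdis b b' hne)) (hg1 b) (hbb ▸ hg1 b')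
  have : k ≤ S.card := by
    have h2 := Finset.card_le_card_of_injOn (s := (Finset.univ : Finset (Fin k))) (t := S) g
      (fun b _ => hg2 b) (hinj.injOn)
    simpa using h2
  omega

lemma gr_nat (r : ℕ) : gr K V (r : ℤ) = ⋀[K]^r V := by
  unfold gr
  rw [if_pos (by positivity), Int.toNat_natCast]

/-- expansion of a homogeneous element in square-free monomials -/
lemma repr_of_mem {r : ℕ} {x : ExteriorAlgebra K V} (hx : x ∈ ⋀[K]^r V)
    (S : Finset (Fin n)) (hS : S.card ≠ r) : (BB e).repr x S = 0 := by
  have h := ((e).exteriorPower r).sum_repr ⟨x, hx⟩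
  have h2 := congrArg (Subtype.val) h
  simp only [AddSubmonoidClass.coe_finsetSum, SetLike.val_smul] at h2
  rw [← h2, map_sum, Finsupp.finsetSum_apply]
  refine Finset.sum_eq_zero fun U _ => ?_
  rw [map_smul, Finsupp.smul_apply, ← ExteriorAlgebra.basis_eq_coe_basis]
  change _ • ((BB e).repr ((BB e) U) S) = 0
  rw [Module.Basis.repr_self, Finsupp.single_apply, if_neg, smul_zero]
  intro h
  apply hS
  rw [← h]
  exact U.2


lemma form_mem (d : ℕ) (c : Finset (Fin n) → K) : form e d c ∈ ⋀[K]^d V := by
  unfold form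
  refine Submodule.sum_mem _ fun s hs => Submodule.smul_mem _ _ ?_
  rw [Finset.mem_powersetCard] at hs
  have := mono_mem (e := e) s
  rwa [hs.2] at this

lemma mul_mem_gr {d : ℕ} {i : ℤ} {f x : ExteriorAlgebra K V}
    (hf : f ∈ ⋀[K]^d V) (hx : x ∈ gr K V i) : f * x ∈ gr K V (i + d) := by
  unfold gr at hx ⊢
  by_cases hi : 0 ≤ i
  · rw [if_pos hi] at hx
    rw [if_pos (by positivity)]
    have h1 : (i + d).toNat = d + i.toNat := by omega
    rw [h1, exteriorPower, pow_add]
    exact Submodule.mul_mem_mul hf hx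
  · rw [if_neg hi] at hx
    rw [(Submodule.mem_bot K).1 hx, mul_zero]
    exact Submodule.zero_mem _

lemma Phi_mem {k d r : ℕ} (T : Fin k → Finset (Fin n)) (hT : ∀ b, (T b).card = d)
    {f x : ExteriorAlgebra K V} (hf : f ∈ ⋀[K]^d V)
    (hx : x ∈ ⋀[K]^r V) : Phi e T f x ∈ ⋀[K]^r V := by
  rw [← gr_nat] at hx ⊢
  unfold Phi
  refine Submodule.add_mem _ ?_ ?_
  · have h1 := mul_mem_gr hf (Hop_mem (e := e) T hT r hx)
    rwa [sub_add_cancel] at h1
  · have h1 := mul_mem_gr hf hx
    have h2 : ((r : ℤ) + (d : ℤ)) = ((r + d : ℕ) : ℤ) := by push_cast; ring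
    rw [h2] at h1
    have h3 := Hop_mem (e := e) T hT (r + d) h1
    have h4 : (((r + d : ℕ) : ℤ) - (d : ℤ)) = r := by push_cast; ring
    rwa [h4] at h3

lemma Phi_smul_add {k : ℕ} (T : Fin k → Finset (Fin n)) {ι' : Type*} (t : Finset ι')
    (a : ι' → K) (y : ι' → ExteriorAlgebra K V) (f : ExteriorAlgebra K V) :
    Phi e T f (∑ j ∈ t, a j • y j) = ∑ j ∈ t, a j • Phi e T f (y j) := by
  unfold Phi
  simp only [map_sum, map_smul, Finset.mul_sum, mul_smul_comm, smul_add, Finset.sum_add_distrib]

lemma Phi_form {k d : ℕ} (T : Fin k → Finset (Fin n)) (c : Finset (Fin n) → K)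
    (x : ExteriorAlgebra K V) :
    Phi e T (form e d c) x = ∑ s : {s : Finset (Fin n) // s.card = d}, c s.1 • Phi e T (mono e s.1) x := by
  have h1 : form e d c = ∑ s : {s : Finset (Fin n) // s.card = d}, c s.1 • mono e s.1 := by
    unfold form
    refine Finset.sum_subtype _ (fun s => ?_) _
    simp [Finset.mem_powersetCard]
  rw [h1]
  unfold Phi
  simp only [map_sum, map_smul, Finset.sum_mul, smul_mul_assoc, smul_add, Finset.sum_add_distrib]

lemma exists_poly {k : ℕ} (d r : ℕ) (T : Fin k → Finset (Fin n)) :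
    ∃ P : MvPolynomial {s : Finset (Fin n) // s.card = d} ℚ,
      ∀ c : Finset (Fin n) → K, ∀ [CharZero K],
        MvPolynomial.aeval (fun s : {s : Finset (Fin n) // s.card = d} => c s.1) P =
        Matrix.det (Matrix.of fun S U : {S : Finset (Fin n) // S.card = r} =>
          (BB e).repr (Phi e T (form e d c) (mono e U.1)) S.1) := by
  have hz : ∀ (s : {s : Finset (Fin n) // s.card = d}) (S U : {S : Finset (Fin n) // S.card = r}),
      ∃ z : ℤ, (BB e).repr (Phi e T (mono e s.1) (mono e U.1)) S.1 = z := by
    intro s S U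
    refine ZL_coord ?_ _
    unfold Phi
    refine AddSubgroup.add_mem _ ?_ ?_
    · exact lmono_mul_mem_ZL _ (Hop_mem_ZL T (lmono_mem_ZL _))
    · exact Hop_mem_ZL T (lmono_mul_mem_ZL _ (lmono_mem_ZL _))
  choose z hz using hz
  refine ⟨Matrix.det (Matrix.of fun S U : {S : Finset (Fin n) // S.card = r} =>
      ∑ s : {s : Finset (Fin n) // s.card = d}, MvPolynomial.C (z s S U : ℚ) * MvPolynomial.X s), ?_⟩
  intro c _
  rw [AlgHom.map_det]
  congr 1
  ext S U
  simp only [AlgHom.mapMatrix_apply, Matrix.map_apply, Matrix.of_apply, map_sum, map_mul,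
    MvPolynomial.aeval_X, MvPolynomial.algHom_C]
  rw [Phi_form]
  simp only [map_sum, map_smul, Finsupp.finsetSum_apply, Finsupp.smul_apply, hz, smul_eq_mul]
  refine Finset.sum_congr rfl fun s _ => ?_
  rw [mul_comm]
  congr 1
  simp


lemma lmono_comm (l l' : List (Fin n)) :
    lmono e l * lmono e l' = (-1 : K) ^ (l.length * l'.length) • (lmono e l' * lmono e l) := by
  induction l with
  | nil => simp
  | cons a l ih =>
    rw [lmono_cons, mul_assoc, ih, mul_smul_comm, ← mul_assoc, gen_mul_lmono, smul_mul_assoc,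
      smul_smul, ← pow_add, mul_assoc]
    congr 2
    simp only [List.length_cons]; ring

lemma form_sq [CharZero K] {d : ℕ} (hd : Odd d) (c : Finset (Fin n) → K) :
    form e d c * form e d c = 0 := by
  have h1 : form e d c * form e d c = - (form e d c * form e d c) := by
    conv_lhs => unfold form
    rw [Finset.sum_mul_sum, Finset.sum_comm]
    conv_rhs => unfold form
    rw [Finset.sum_mul_sum, ← Finset.sum_neg_distrib]
    refine Finset.sum_congr rfl fun s hs => ?_
    rw [← Finset.sum_neg_distrib]
    refine Finset.sum_congr rfl fun t ht => ?_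
    rw [Finset.mem_powersetCard] at hs ht
    have h2 := lmono_comm (e := e) (t.sort (· ≤ ·)) (s.sort (· ≤ ·))
    rw [Finset.length_sort, Finset.length_sort, hs.2, ht.2, (hd.mul hd).neg_one_pow] at h2
    simp only [smul_mul_smul_comm]
    unfold mono
    rw [h2, mul_comm (c t) (c s)]
    simp
  have h3 : (2 : K) • (form e d c * form e d c) = 0 := by
    rw [two_smul]
    nth_rewrite 1 [h1]
    simp
  exact (smul_eq_zero.1 h3).resolve_left two_ne_zero

/-- the standard blocks -/
def block (n k d : ℕ) (h : k * d ≤ n) (b : Fin k) : Finset (Fin n) :=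
  Finset.univ.map ⟨fun j : Fin d => (⟨b.1 * d + j.1, by
    have h1 : b.1 * d + j.1 < (b.1 + 1) * d := by
      rw [add_mul, one_mul]; exact Nat.add_lt_add_left j.2 _
    have h2 : (b.1 + 1) * d ≤ k * d := Nat.mul_le_mul_right _ b.2
    omega⟩ : Fin n), fun j j' hj => by
      simp only [Fin.mk.injEq] at hj
      exact Fin.ext (by omega)⟩

lemma block_card (n k d : ℕ) (h : k * d ≤ n) (b : Fin k) : (block n k d h b).card = d := by
  simp [block]

lemma block_disjoint (n k d : ℕ) (h : k * d ≤ n) (b b' : Fin k) (hb : b ≠ b') :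
    Disjoint (block n k d h b) (block n k d h b') := by
  rw [Finset.disjoint_left]
  intro i hi hi'
  simp only [block, Finset.mem_map, Finset.mem_univ, true_and] at hi hi'
  obtain ⟨j, hj⟩ := hi
  obtain ⟨j', hj''⟩ := hi'
  have hj' : b'.1 * d + j'.1 = b.1 * d + j.1 := by
    have e1 : b.1 * d + j.1 = i.1 := congrArg Fin.val hj
    have e2 : b'.1 * d + j'.1 = i.1 := congrArg Fin.val hj''
    omega
  apply hb
  have hd : 0 < d := lt_of_le_of_lt (Nat.zero_le _) j.2
  have h1 : (b'.1 * d + j'.1) / d = b'.1 := by
    rw [mul_comm, Nat.mul_add_div hd, Nat.div_eq_of_lt j'.2, add_zero]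
  have h2 : (b.1 * d + j.1) / d = b.1 := by
    rw [mul_comm, Nat.mul_add_div hd, Nat.div_eq_of_lt j.2, add_zero]
  rw [hj', h2] at h1
  exact Fin.ext h1

lemma det_ne_zero [CharZero K] {k d r : ℕ} (hd : Odd d) (hr : r < k) (h : k * d ≤ n)
    (c : Finset (Fin n) → K)
    (hc : AlgebraicIndependent ℚ (fun s : {s : Finset (Fin n) // s.card = d} => c s.1)) :
    Matrix.det (Matrix.of fun S U : {S : Finset (Fin n) // S.card = r} =>
      (BB e).repr (Phi e (block n k d h) (form e d c) (mono e U.1)) S.1) ≠ 0 := by
  obtain ⟨P, hP⟩ := exists_poly (e := e) d r (block n k d h)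
  rw [← hP c]
  have hP0 : P ≠ 0 := by
    intro h0
    have h1 := hP (fun s => if ∃ b, s = block n k d h b then 1 else 0)
    rw [h0, map_zero] at h1
    have hd0 : 0 < d := hd.pos
    have hform : form e d (fun s => if ∃ b, s = block n k d h b then (1 : K) else 0) =
        ∑ b, mono e (block n k d h b) := by
      unfold form
      have hinj : Function.Injective (block n k d h) := by
        intro b b' hbb
        by_contra hne
        have h2 := block_disjoint n k d h b b' hne
        rw [hbb, disjoint_self, Finset.bot_eq_empty] at h2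
        have h3 := block_card n k d h b'
        rw [h2, Finset.card_empty] at h3
        omega
      have hsub : Finset.univ.image (block n k d h) ⊆
          (Finset.univ : Finset (Fin n)).powersetCard d := by
        intro s hs
        rw [Finset.mem_image] at hs
        obtain ⟨b, _, rfl⟩ := hs
        exact Finset.mem_powersetCard.2 ⟨Finset.subset_univ _, block_card n k d h b⟩
      rw [← Finset.sum_subset hsub]
      · rw [Finset.sum_image (fun a _ b _ hab => hinj hab)]
        refine Finset.sum_congr rfl fun b _ => ?_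
        have hb : ∃ b', block n k d h b = block n k d h b' := ⟨b, rfl⟩
        beta_reduce
        rw [if_pos hb, one_smul]
      · intro s _ hs
        beta_reduce
        rw [if_neg, zero_smul]
        rintro ⟨b, rfl⟩
        exact hs (Finset.mem_image_of_mem _ (Finset.mem_univ _))
    rw [hform] at h1
    have hdiag : (Matrix.of fun S U : {S : Finset (Fin n) // S.card = r} =>
        (BB e).repr (Phi e (block n k d h) (∑ b, mono e (block n k d h b)) (mono e U.1)) S.1) =
        Matrix.diagonal (fun S => (lam (block n k d h) S.1 : K)) := by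
      ext S U
      rw [Matrix.of_apply, Phi_special (block n k d h) hd (block_card n k d h)
        (block_disjoint n k d h), map_smul, Finsupp.smul_apply, ← BB_apply,
        Module.Basis.repr_self, Finsupp.single_apply, Matrix.diagonal_apply]
      by_cases hSU : S = U
      · subst hSU; simp
      · rw [if_neg hSU, if_neg (fun e => hSU (Subtype.ext e.symm)), smul_zero]
    rw [hdiag, Matrix.det_diagonal] at h1
    have h2 : ∏ S : {S : Finset (Fin n) // S.card = r}, (lam (block n k d h) S.1 : K) ≠ 0 := by
      rw [Finset.prod_ne_zero_iff]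
      intro S _
      have := lam_pos (block n k d h) (block_disjoint n k d h) S.1 (by rw [S.2]; exact hr)
      exact_mod_cast this.ne'
    exact h2 h1.symm
  intro h0
  apply hP0
  have hinj : Function.Injective (MvPolynomial.aeval (R := ℚ)
    (fun s : {s : Finset (Fin n) // s.card = d} => c s.1)) := hc
  exact hinj (by rw [h0, map_zero])

lemma Phi_inj [CharZero K] {k d r : ℕ} (hd : Odd d) (hr : r < k) (h : k * d ≤ n)
    (c : Finset (Fin n) → K)
    (hc : AlgebraicIndependent ℚ (fun s : {s : Finset (Fin n) // s.card = d} => c s.1))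
    {x : ExteriorAlgebra K V} (hx : x ∈ ⋀[K]^r V)
    (h0 : Phi e (block n k d h) (form e d c) x = 0) : x = 0 := by
  have hdet := det_ne_zero (e := e) hd hr h c hc
  have hx1 : x = ∑ U : {S : Finset (Fin n) // S.card = r}, (BB e).repr x U.1 • mono e U.1 := by
    conv_lhs => rw [← (BB e).sum_repr x]
    rw [← Finset.sum_filter_add_sum_filter_not Finset.univ (fun S : Finset (Fin n) => S.card = r)]
    have h1 : ∑ S ∈ Finset.univ.filter (fun S : Finset (Fin n) => ¬ S.card = r),
        (BB e).repr x S • (BB e) S = 0 := by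
      refine Finset.sum_eq_zero fun S hS => ?_
      rw [repr_of_mem hx S (Finset.mem_filter.1 hS).2, zero_smul]
    rw [h1, add_zero]
    rw [Finset.sum_subtype (p := fun S : Finset (Fin n) => S.card = r)
      (F := inferInstance) _ (fun S => by simp)]
    simp only [BB_apply]
  have h2 : Matrix.mulVec (Matrix.of fun S U : {S : Finset (Fin n) // S.card = r} =>
      (BB e).repr (Phi e (block n k d h) (form e d c) (mono e U.1)) S.1)
      (fun U => (BB e).repr x U.1) = 0 := by
    ext S
    have h3 : (BB e).repr (Phi e (block n k d h) (form e d c) x) S.1 = 0 := by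
      rw [h0]; simp
    have h3 : (BB e).repr (Phi e (block n k d h) (form e d c)
        (∑ U : {S : Finset (Fin n) // S.card = r}, (BB e).repr x U.1 • mono e U.1)) S.1 = 0 := by
      rw [← hx1]; exact h3
    rw [Phi_smul_add] at h3
    simp only [map_sum, map_smul, Finsupp.finsetSum_apply, Finsupp.smul_apply, smul_eq_mul] at h3
    simp only [Matrix.mulVec, dotProduct, Matrix.of_apply, Pi.zero_apply]
    rw [← h3]
    refine Finset.sum_congr rfl fun U _ => ?_
    ring
  have h4 := Matrix.eq_zero_of_mulVec_eq_zero hdet h2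
  rw [hx1]
  refine Finset.sum_eq_zero fun U _ => ?_
  have h5 : (BB e).repr x U.1 = 0 := congrFun h4 U
  rw [h5, zero_smul]

end ops

lemma generic_family {K : Type u} [Field K] [CharZero K] {n d : ℕ} {c : Finset (Fin n) → K}
    (h : IsGeneric d c) :
    AlgebraicIndependent ℚ (fun s : {s : Finset (Fin n) // s.card = d} => c s.1) := by
  have h1 := h.2.2.comp (fun s : {s : Finset (Fin n) // s.card = d} =>
    (⟨c s.1, s.1, s.2, rfl⟩ : {a : K // ∃ s : Finset (Fin n), s.card = d ∧ c s = a}))
    (fun s t hst => Subtype.ext (h.1 s.1 t.1 s.2 t.2 (congrArg Subtype.val hst)))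
  exact h1

theorem main_aux (K : Type u) [Field K] [CharZero K] (V : Type v) [AddCommGroup V] [Module K V]
    (d : ℕ) (hd : Odd d) (r n : ℕ) (e : Module.Basis (Fin n) K V)
    (hn : (r + 1) * d ≤ n) (c : Finset (Fin n) → K)
    (hc : AlgebraicIndependent ℚ (fun s : {s : Finset (Fin n) // s.card = d} => c s.1))
    (x : ExteriorAlgebra K V) (hx : x ∈ gr K V r) (hfx : form e d c * x = 0) :
    ∃ y ∈ gr K V ((r : ℤ) - (d : ℤ)), form e d c * y = x := by
  have : Module.Finite K (ExteriorAlgebra K V) := Module.Finite.of_basis (BB e)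
  let W : Submodule K (ExteriorAlgebra K V) := cycles (form e d c) r
  have hW : ∀ w, w ∈ W ↔ w ∈ ⋀[K]^r V ∧ form e d c * w = 0 := by
    intro w
    change w ∈ cycles (form e d c) r ↔ _
    unfold cycles
    rw [Submodule.mem_inf, gr_nat]
    rfl
  have hff : form e d c * form e d c = 0 := form_sq hd c
  have hPhi : ∀ w ∈ W, Phi e (block n (r + 1) d hn) (form e d c) w ∈ W := by
    intro w hw
    rw [hW] at hw ⊢
    refine ⟨Phi_mem _ (block_card _ _ _ _) (form_mem d c) hw.1, ?_⟩
    unfold Phi
    rw [hw.2, map_zero, add_zero, ← mul_assoc, hff, zero_mul]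
  let Ψ : W →ₗ[K] W :=
    { toFun := fun w => ⟨Phi e (block n (r + 1) d hn) (form e d c) w.1, hPhi w.1 w.2⟩
      map_add' := by
        intro a b
        apply Subtype.ext
        simp only [Phi, Submodule.coe_add, map_add, mul_add]
        abel
      map_smul' := by
        intro a b
        apply Subtype.ext
        simp only [Phi, Submodule.coe_smul, map_smul, mul_smul_comm, smul_add, RingHom.id_apply] }
  have hinj : Function.Injective Ψ := by
    rw [← LinearMap.ker_eq_bot, LinearMap.ker_eq_bot']
    intro w hw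
    apply Subtype.ext
    have h1 : Phi e (block n (r + 1) d hn) (form e d c) w.1 = 0 := congrArg Subtype.val hw
    exact Phi_inj hd (Nat.lt_succ_self r) hn c hc ((hW w.1).1 w.2).1 h1
  have hsurj := LinearMap.injective_iff_surjective.1 hinj
  have hxW : x ∈ W := by
    rw [hW]; rw [gr_nat] at hx; exact ⟨hx, hfx⟩
  obtain ⟨w, hw⟩ := hsurj ⟨x, hxW⟩
  have h1 : Phi e (block n (r + 1) d hn) (form e d c) w.1 = x := congrArg Subtype.val hw
  refine ⟨Hop e (block n (r + 1) d hn) w.1, ?_, ?_⟩
  · refine Hop_mem _ (block_card _ _ _ _) r ?_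
    rw [gr_nat]; exact ((hW w.1).1 w.2).1
  · rw [← h1]
    unfold Phi
    rw [((hW w.1).1 w.2).2, map_zero, add_zero]

/-- Sanity check: over the complex numbers generic forms exist for all `n` and `d`. -/
lemma exists_indep (ι' : Type) [Finite ι'] : ∃ f : ι' → ℂ, AlgebraicIndependent ℚ f := by
  obtain ⟨s, hs⟩ := exists_isTranscendenceBasis ℚ ℂ
  have h1 := IsAlgClosed.cardinal_eq_cardinal_transcendence_basis_of_aleph0_lt
    (R := ℚ) (K := ℂ) (fun x : s => (x : ℂ)) hs
    (by simp) (by rw [Cardinal.mk_complex]; exact Cardinal.aleph0_lt_continuum)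
  have h2 : Infinite s := by
    rw [Cardinal.infinite_iff]
    have : Cardinal.mk s = Cardinal.mk ℂ := by simpa using h1.symm
    rw [this, Cardinal.mk_complex]; exact Cardinal.aleph0_le_continuum
  obtain ⟨n, ⟨e⟩⟩ := Finite.exists_equiv_fin ι'
  have e2 : Fin n ↪ s := (Fin.valEmbedding.trans (Infinite.natEmbedding s))
  exact ⟨fun i => (e2 (e i) : ℂ), hs.1.comp (fun i => e2 (e i)) (e2.injective.comp e.injective)⟩

/-- Sanity check: over the complex numbers generic forms exist for all `n` and `d`. -/
lemma exists_generic (n d : ℕ) : ∃ c : Finset (Fin n) → ℂ, IsGeneric d c := by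
  obtain ⟨f, hf⟩ := exists_indep {s : Finset (Fin n) // s.card = d}
  refine ⟨fun s => if h : s.card = d then f ⟨s, h⟩ else 0, ?_, ?_, ?_⟩
  · intro s t hs ht hst
    simp only [dif_pos hs, dif_pos ht] at hst
    exact congrArg Subtype.val (hf.injective hst)
  · intro s hs q hq
    simp only [dif_pos hs] at hq
    have h1 := hf.transcendental ⟨s, hs⟩
    rw [hq] at h1
    exact h1 (isAlgebraic_algebraMap q)
  · have h1 := hf.to_subtype_range
    refine h1.comp (fun a : {a : ℂ // ∃ s : Finset (Fin n), s.card = d ∧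
      (if h : s.card = d then f ⟨s, h⟩ else 0) = a} => (⟨a.1, ?_⟩ : Set.range f)) ?_
    · obtain ⟨a, s, hs, rfl⟩ := a
      simp only [dif_pos hs]
      exact ⟨⟨s, hs⟩, rfl⟩
    · intro a b hab
      exact Subtype.ext (congrArg (fun z : Set.range f => z.1) hab)

/-- For odd `d > 1` and every `r ≥ 0` there is `N` (depending only on `r` and `d`) such that for
every field `K` of characteristic zero, every `n ≥ N` and every generic form `f` of degree `d`
in `n` variables over `K`, the homology `H_r(n, d)` vanishes. -/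
theorem result (d : ℕ) (_hd1 : 1 < d) (hd : Odd d) (r : ℕ) :
    ∃ N : ℕ, ∀ (K : Type u) [Field K] [CharZero K] (n : ℕ), N ≤ n →
      ∀ (V : Type v) [AddCommGroup V] [Module K V] (x : Module.Basis (Fin n) K V)
        (c : Finset (Fin n) → K), IsGeneric d c → Subsingleton (Homology (form x d c) d r) := by
  refine ⟨(r + 1) * d, fun K _ _ n hn V _ _ e c hc => ?_⟩
  rw [Submodule.Quotient.subsingleton_iff, Submodule.eq_top_iff']
  rintro ⟨x, hx⟩
  unfold boundsIn
  rw [Submodule.mem_comap]
  unfold cycles at hx
  rw [Submodule.mem_inf] at hx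
  obtain ⟨y, hy, hxy⟩ := main_aux K V d hd r n e hn c (generic_family hc) x hx.1 hx.2
  exact ⟨y, hy, hxy⟩

end Pool.Agent.Results.MP_a0e599_al.Main
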